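import Mathlib
import Pool.Agent.H12.FirstFit

set_option autoImplicit false

namespace Pool.Agent.Results.MP_4aa424_co.Blowup

open Pool.Agent.H12.FirstFit

/-- No induced cycle of length at least four. -/
def Chordal {V : Type} (G : SimpleGraph V) : Prop :=
  ∀ n, 4 ≤ n → IsEmpty (SimpleGraph.cycleGraph n ↪g G)

/-- A wall of height t: a partition into non-empty independent sets L_0, ..., L_(t-1) (the fibres of f)
in which every vertex of L_j has a neighbour in L_i whenever i < j. -/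
def HasWall {V : Type} (G : SimpleGraph V) (t : ℕ) : Prop :=
  ∃ f : V → ℕ, (∀ v, f v < t) ∧ (∀ i < t, ∃ v, f v = i) ∧ (∀ u v, G.Adj u v → f u ≠ f v) ∧
    ∀ v, ∀ i < f v, ∃ w, G.Adj v w ∧ f w = i

/-- First-Fit can be forced to use c * omega * log n colours on chordal graphs, uniformly in omega. -/
theorem result : ∃ c : ℝ, 0 < c ∧ ∀ k : ℕ, 2 ≤ k → ∀ N : ℕ, ∃ (n : ℕ) (G : SimpleGraph (Fin n)) (t : ℕ),
    N ≤ n ∧ Chordal G ∧ G.cliqueNum = k ∧ HasWall G t ∧ c * k * Real.log n ≤ t := by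
  refine ⟨1 / 6, by norm_num, fun k hk N => ?_⟩
  obtain ⟨m, hm1, hm2, hm3⟩ : ∃ m, 2 * m ≤ k ∧ k ≤ 3 * m ∧ 1 ≤ m := ⟨k / 2, by omega, by omega, by omega⟩
  obtain ⟨s, hs1, hs2⟩ : ∃ s, N ≤ s ∧ k ≤ s := ⟨N + k, by omega, by omega⟩
  let e := Fintype.equivFin (V s m k)
  let φ : (G s m k).comap e.symm ≃g G s m k := SimpleGraph.Iso.comap e.symm _
  have hp : s < 2 ^ s := Nat.lt_two_pow_self
  refine ⟨_, (G s m k).comap e.symm, (s + 1) * m, ?_, ?_, ?_, ?_, ?_⟩
  · rw [card_V]
    nlinarith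
  · exact fun n hn => ⟨fun g => (chordal n hn).false (φ.toEmbedding.comp g)⟩
  · refine Eq.trans ?_ (cliqueNum (s := s) hm1)
    simp only [SimpleGraph.cliqueNum]
    congr 1
    ext j
    constructor
    · rintro ⟨T, hT⟩
      exact ⟨_, hT.map (f := e.symm.toEmbedding) |>.mono (by
        rw [SimpleGraph.map_le_iff_le_comap]; rfl)⟩
    · rintro ⟨T, hT⟩
      exact ⟨_, hT.map (f := e.toEmbedding) |>.mono (by
        rw [SimpleGraph.map_le_iff_le_comap]
        intro a b h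
        simpa using h)⟩
  · refine ⟨fun v => f s m k (e.symm v), fun v => f_lt (by nlinarith) _, fun i hi => ?_,
      fun u v h => f_proper h, fun v i hi => ?_⟩
    · obtain ⟨v, hv⟩ := f_surj (k := k) i hi
      exact ⟨e v, by simpa using hv⟩
    · obtain ⟨w, h1, h2⟩ := f_down _ i hi
      exact ⟨e w, by simpa using h1, by simpa using h2⟩
  · have h1 : Fintype.card (V s m k) ≤ 2 ^ (2 * (s + 1)) := by
      rw [card_V, show 2 ^ (2 * (s + 1)) = 4 * (2 ^ s * 2 ^ s) by ring]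
      have : m ≤ 2 ^ s := by omega
      nlinarith
    have h2 : Real.log (Fintype.card (V s m k)) ≤ 2 * (s + 1) := by
      have h3 : (0 : ℝ) < Fintype.card (V s m k) := by
        rw [card_V]
        exact_mod_cast (by omega : 0 < 2 ^ s * m + k)
      have h4 : (Fintype.card (V s m k) : ℝ) ≤ 2 ^ (2 * (s + 1)) := by exact_mod_cast h1
      have h5 := Real.log_le_log h3 h4
      rw [Real.log_pow] at h5
      have h6 : Real.log 2 ≤ 1 := by linarith [Real.log_two_lt_d9]
      have h7 : (0 : ℝ) ≤ ((2 * (s + 1) : ℕ) : ℝ) := Nat.cast_nonneg _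
      have h8 := mul_le_mul_of_nonneg_left h6 h7
      push_cast at h5 h8
      linarith
    have h3 : (k : ℝ) ≤ 3 * m := by exact_mod_cast hm2
    have h4 : (0 : ℝ) ≤ k := Nat.cast_nonneg _
    have h5 : (0 : ℝ) ≤ s := Nat.cast_nonneg _
    push_cast
    nlinarith [mul_le_mul_of_nonneg_left h2 h4, mul_le_mul_of_nonneg_right h3 (by linarith : (0 : ℝ) ≤ s + 1)]

end Pool.Agent.Results.MP_4aa424_co.Blowup
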